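import Pool.Agent.H384R2.RMExp

/-!
# MP_58cb87_lc: the exponent of the revealment of iterated majority exists

The liminf and the limsup of the problem agree; the common value is the supremum over `k ≥ 1` of
the ratios `-log δ(f_k) / log 3^k` (submultiplicativity of the minimal expected number of queries
`3^k δ(f_k)`).
-/

set_option autoImplicit false

namespace Pool.Agent.Results.MP_58cb87_lc.LimitExists

open Filter Topology Pool.Agent.H384R2.RM

theorem result : ∃ L : ℝ,
    Tendsto (fun k : ℕ => -Real.log (delta (f k)) / Real.log (3 ^ k)) atTop (𝓝 L) ∧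
    liminf (fun k : ℕ => -Real.log (delta (f k)) / Real.log (3 ^ k)) atTop = L ∧
    limsup (fun k : ℕ => -Real.log (delta (f k)) / Real.log (3 ^ k)) atTop = L ∧
    (∀ k : ℕ, 1 ≤ k → -Real.log (delta (f k)) / Real.log (3 ^ k) ≤ L) ∧
    ∀ l k : ℕ, delta (f (l + k)) ≤ delta (f l) * delta (f k) := by
  refine ⟨expo, tendsto_ratio, liminf_eq, limsup_eq, fun k hk => ratio_le_expo (by omega), ?_⟩
  intro l k
  rw [delta_eq, delta_eq, delta_eq, div_mul_div_comm, ← pow_add]
  exact div_le_div_of_nonneg_right (D_add_le l k) (by positivity)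

end Pool.Agent.Results.MP_58cb87_lc.LimitExists
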