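import Pool.Agent.H384R2.RMExp

/-!
# MP_58cb87_lc: a better lower bound for the revealment

`δ(f_k) ≥ (0.755)^k`, so that the exponent is at most `log(600/453)/log 3 < 0.256`
(known: `(3/4)^k` and `log(4/3)/log 3 ≈ 0.262`).
-/

set_option autoImplicit false

namespace Pool.Agent.Results.MP_58cb87_lc.RevealLower

open Filter Topology Pool.Agent.H384R2.RM

theorem num : Real.log (600 / 453) / Real.log 3 < 32 / 125 := by
  rw [div_lt_iff₀ log_three_pos]
  have h1 : (125 : ℕ) * Real.log (600 / 453) < (32 : ℕ) * Real.log 3 := by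
    rw [← Real.log_pow, ← Real.log_pow]
    apply Real.log_lt_log (by positivity)
    norm_num
  push_cast at h1
  linarith

theorem result : (∀ k : ℕ, (453 / 600 : ℝ) ^ k ≤ delta (f k)) ∧
    limsup (fun k : ℕ => -Real.log (delta (f k)) / Real.log (3 ^ k)) atTop ≤
      Real.log (600 / 453) / Real.log 3 ∧
    Real.log (600 / 453) / Real.log 3 < 32 / 125 := by
  refine ⟨delta_ge, ?_, num⟩
  have h : limsup (fun k : ℕ => -Real.log (delta (f k)) / Real.log (3 ^ k)) atTop = expo :=
    limsup_eq
  rw [h]
  exact expo_le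

end Pool.Agent.Results.MP_58cb87_lc.RevealLower
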