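import Pool.Agent.H384R2.RMExp
import Pool.Agent.H384R2.RMTableB

/-!
# MP_58cb87_lc: a better upper bound for the revealment

`δ(f_k) ≤ C (24577/30000)^k`, so that the exponent is at least
`log(30000/24577)/log 3 > 0.18148` (known: `(5/6)^k` and `log(6/5)/log 3 ≈ 0.166`).
The strategy interleaves the evaluation of the blocks according to a finite table of patterns.
-/

set_option autoImplicit false

namespace Pool.Agent.Results.MP_58cb87_lc.RevealUpper

open Filter Topology Pool.Agent.H384R2.RM

theorem can (k : ℕ) : Can k (emp k) (810000000 * (24577 / 10000) ^ k) := by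
  have h := tabB_emp k
  refine h.mono (le_of_eq ?_)
  push_cast
  ring

set_option exponentiation.threshold 1000 in
theorem num : 49 / 270 < Real.log (30000 / 24577) / Real.log 3 := by
  rw [lt_div_iff₀ log_three_pos]
  have h1 : (49 : ℕ) * Real.log 3 < (270 : ℕ) * Real.log (30000 / 24577) := by
    rw [← Real.log_pow, ← Real.log_pow]
    apply Real.log_lt_log (by positivity)
    norm_num
  push_cast at h1
  linarith

theorem result : (∃ C : ℝ, ∀ k : ℕ, delta (f k) ≤ C * (24577 / 30000) ^ k) ∧
    Real.log (30000 / 24577) / Real.log 3 ≤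
      liminf (fun k : ℕ => -Real.log (delta (f k)) / Real.log (3 ^ k)) atTop ∧
    49 / 270 < Real.log (30000 / 24577) / Real.log 3 := by
  refine ⟨⟨810000000, fun k => ?_⟩, ?_, num⟩
  · have h := delta_le can k
    rw [show (24577 / 30000 : ℝ) = 24577 / 10000 / 3 by norm_num]
    exact h
  · have h : liminf (fun k : ℕ => -Real.log (delta (f k)) / Real.log (3 ^ k)) atTop = expo :=
      liminf_eq
    rw [h, show (30000 / 24577 : ℝ) = 3 / (24577 / 10000) by norm_num]
    exact le_expo (by norm_num) (by norm_num) can

end Pool.Agent.Results.MP_58cb87_lc.RevealUpper
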